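import Mathlib

open Complex TopologicalSpace
open scoped ComplexOrder LineDeriv

namespace Pool.Agent.H.MP_2777d9_an

section
variable {X : Type} [NormedAddCommGroup X] [NormedSpace ℝ X]

variable (X) in
/-- Real smooth test functions. -/
abbrev TF := TestFunction (⊤ : Opens X) ℝ ⊤

variable (X) in
/-- Complex distributions. -/
abbrev Di := Distribution (⊤ : Opens X) ℂ ⊤

/-- Value of a distribution at a test function. -/
noncomputable def ap (u : Di X) (φ : TF X) : ℂ := u φ

/-- Nonnegative test functions. -/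
def Nn (φ : TF X) : Prop := ∀ z, 0 ≤ φ z

/-- Directional derivative of a test function. -/
noncomputable def der (v : X) (φ : TF X) : TF X := ∂_{v} φ

/-- Support of a distribution. -/
def supp (u : Di X) : Set X := Distribution.dsupport u

end

abbrev E := Fin 4 → ℂ

/-- Currents of bidimension (2,2) on `ℂ⁴`, given by the distributions
`φ ↦ ⟨T, φ (i dz_j ∧ dz̄_k) ∧ (i dz_l ∧ dz̄_m)⟩`. -/
abbrev Cur := Fin 4 → Fin 4 → Fin 4 → Fin 4 → Di E

def Anti (T : Cur) : Prop :=
  ∀ j k l m φ, ap (T l k j m) φ = -ap (T j k l m) φ ∧ ap (T j m l k) φ = -ap (T j k l m) φ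

def Pos (T : Cur) : Prop := ∀ (a b : E) φ, Nn φ →
  0 ≤ ∑ j, ∑ k, ∑ l, ∑ m, a j * star (a k) * (b l * star (b m) * ap (T j k l m) φ)

def Cl (T : Cur) : Prop := ∀ k l m φ, ∑ j, (ap (T j k l m) (der (Pi.single j 1) φ) -
  I * ap (T j k l m) (der (Pi.single j I) φ)) = 0

def Cl' (T : Cur) : Prop := ∀ j l m φ, ∑ k, (ap (T j k l m) (der (Pi.single k 1) φ) +
  I * ap (T j k l m) (der (Pi.single k I) φ)) = 0

/-- Positive closed currents. -/
def PosClosed (T : Cur) : Prop := Anti T ∧ Pos T ∧ Cl T ∧ Cl' T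

/-- There is no nonzero positive closed current with support in `S`. -/
def NoCur (S : Set E) : Prop :=
  ∀ T : Cur, PosClosed T → (∀ j k l m, supp (T j k l m) ⊆ S) → ∀ j k l m φ, ap (T j k l m) φ = 0

end Pool.Agent.H.MP_2777d9_an
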