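import Mathlib
import Pool.Agent.H.MP_2777d9_an.D

open Set Filter Topology Complex TopologicalSpace Metric Distribution
open scoped ComplexOrder LineDeriv ContDiff Manifold

namespace Pool.Agent.H.MP_2777d9_an

abbrev 𝒯 := TestFunction (⊤ : Opens E) ℝ ⊤

noncomputable def mul {g : E → ℝ} (hg : ContDiff ℝ ∞ g) (φ : 𝒯) : 𝒯 :=
  ⟨fun z => g z * φ z, hg.mul φ.contDiff, φ.hasCompactSupport.mul_left, subset_univ _⟩

@[simp] lemma mul_ap {g : E → ℝ} (hg : ContDiff ℝ ∞ g) (φ : 𝒯) (z) : mul hg φ z = g z * φ z := rfl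

lemma dap (φ : 𝒯) (v z : E) : (∂_{v} φ : 𝒯) z = fderiv ℝ φ z v := by
  rw [TestFunction.lineDerivOp_eq_lineDerivCLM ℝ, TestFunction.lineDerivCLM_apply_of_le le_top,
    (φ.contDiff.differentiable (by simp)).differentiableAt.lineDeriv_eq_fderiv]

lemma van {u : 𝒯 →ₗ[ℝ] ℂ} {S : Set E} (h : dsupport u ⊆ S) : IsVanishingOn u Sᶜ := fun φ hφ => by
  obtain ⟨U, -, a, b⟩ : ∃ U, IsOpen U ∧ tsupport φ ⊆ U ∧ IsVanishingOn u U := by
    refine φ.hasCompactSupport.isCompact.induction_on (p := fun s => ∃ U, IsOpen U ∧ s ⊆ U ∧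
      IsVanishingOn u U) ⟨∅, isOpen_empty, le_rfl, fun ψ hψ => ?_⟩
      (fun s t st ⟨U, a, b, c⟩ => ⟨U, a, st.trans b, c⟩)
      (fun s t ⟨U, a, b, c⟩ ⟨V, d, e, f⟩ => ⟨U ∪ V, a.union d, union_subset_union b e, fun ψ hψ => ?_⟩)
      fun x hx => ?_
    · have : ψ = 0 := by
        ext z; exact image_eq_zero_of_notMem_tsupport fun k => hψ k
      rw [this, map_zero]
    · obtain ⟨χ, h0, h1, -⟩ := exists_contMDiffMap_zero_one_nhds_of_isClosed 𝓘(ℝ, E) (n := ⊤)
        a.isClosed_compl ((isClosed_tsupport ψ).inter d.isClosed_compl)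
        (disjoint_left.2 fun z p q => (hψ q.1).elim p q.2)
      have s := contMDiff_iff_contDiff.1 χ.contMDiff
      have : ψ = mul s ψ + mul (contDiff_const.sub s : ContDiff ℝ ∞ fun z => 1 - χ z) ψ := by
        ext z; simp; ring
      rw [this, map_add, c, f, add_zero]
      · refine fun z hz => by_contra fun k => ?_
        have q : z ∈ tsupport ψ := tsupport_mul_subset_right hz
        refine notMem_tsupport_iff_eventuallyEq.2 ?_ hz
        filter_upwards [(eventually_nhdsSet_iff_forall.1 h1) z ⟨q, k⟩] with w hw using by simp [hw]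
      · refine fun z hz => by_contra fun k => notMem_tsupport_iff_eventuallyEq.2 ?_ hz
        filter_upwards [(eventually_nhdsSet_iff_forall.1 h0) z k] with w hw using by simp [hw]
    · obtain ⟨U, a, b, c⟩ := (notMem_dsupport_iff x).1 fun k => hφ hx (h k)
      exact ⟨U, mem_nhdsWithin_of_mem_nhds (b.mem_nhds c), U, b, le_rfl, a⟩
  exact b φ a

lemma cut (R : ℝ) : ∃ χ : 𝒯, (∀ z, 0 ≤ χ z) ∧ ∀ z, ‖z‖ ≤ R → χ z = 1 := by
  let b : ContDiffBump (0 : E) := ⟨|R| + 1, |R| + 2, by positivity, by linarith⟩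
  exact ⟨⟨b, b.contDiff, b.hasCompactSupport, subset_univ _⟩, fun z => b.nonneg, fun z h =>
    b.one_of_mem_closedBall (mem_closedBall_zero_iff.2 (h.trans ((le_abs_self R).trans (by simp [b]))))⟩

lemma rad (φ : 𝒯) : ∃ R, ∀ z, φ z ≠ 0 → ‖z‖ ≤ R := by
  obtain ⟨R, h⟩ := φ.hasCompactSupport.isCompact.isBounded.exists_norm_le
  exact ⟨R, fun z hz => h z (subset_tsupport _ hz)⟩

variable {u : 𝒯 →ₗ[ℝ] ℂ} (hu : ∀ φ : 𝒯, (∀ z, 0 ≤ φ z) → 0 ≤ u φ)
include hu

lemma ord {φ χ : 𝒯} {ε : ℝ} (hχ : ∀ z, 0 ≤ χ z) (h : ∀ z, |φ z| ≤ ε * χ z) : ‖u φ‖ ≤ ε * (u χ).re := by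
  have a := hu (ε • χ - φ) fun z => by simpa using (abs_le.1 (h z)).2
  have b := hu (ε • χ + φ) fun z => by simpa using neg_le_iff_add_nonneg'.1 (abs_le.1 (h z)).1
  have c := hu χ hχ
  simp only [map_sub, map_add, map_smul, Complex.le_def, real_smul] at a b c
  simp [← c.2] at a b
  rw [← re_add_im (u φ), ← b.2]
  simpa [abs_le] using ⟨by linarith [b.1], a.1⟩

lemma zero {L : Set E} (hL : IsVanishingOn u Lᶜ) {φ : 𝒯} (h : ∀ z ∈ L, φ z = 0) : u φ = 0 := by
  obtain ⟨R, hR⟩ := rad φ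
  obtain ⟨χ, c0, c1⟩ := cut R
  have k : ∀ ε, 0 < ε → ‖u φ‖ ≤ 2 * ε * (u χ).re := fun ε e => by
    have s : ContDiff ℝ ∞ fun z => Real.smoothTransition (φ z ^ 2 / ε ^ 2 - 1) :=
      Real.smoothTransition.contDiff.comp (((φ.contDiff.pow 2).div_const _).sub contDiff_const)
    have : u (mul s φ) = 0 := hL _ ((closure_minimal (t := {z | ε ^ 2 ≤ φ z ^ 2}) (fun z hz => by
      by_contra k
      refine hz ?_
      rw [mul_ap, Real.smoothTransition.zero_of_nonpos (sub_nonpos.2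
        ((div_le_one (by positivity)).2 (not_le.1 k).le)), zero_mul])
      (isClosed_le continuous_const (φ.continuous.pow 2))).trans fun z hz k => by
        simp [h z k, e.ne'] at hz)
    rw [← sub_zero (u φ), ← this, ← map_sub]
    refine ord hu c0 fun z => ?_
    by_cases p : φ z = 0
    · simpa [p] using mul_nonneg (by positivity) (c0 z)
    rw [c1 z (hR z p), mul_one]
    by_cases q : 2 * ε ^ 2 ≤ φ z ^ 2
    · simp [Real.smoothTransition.one_of_one_le (le_sub_iff_add_le.2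
        ((le_div_iff₀ (by positivity)).2 (by linarith : (1 + 1) * ε ^ 2 ≤ φ z ^ 2))), e.le]
    · have a := Real.smoothTransition.nonneg (φ z ^ 2 / ε ^ 2 - 1)
      have b := Real.smoothTransition.le_one (φ z ^ 2 / ε ^ 2 - 1)
      have : |φ z| ≤ 2 * ε := abs_le_of_sq_le_sq (by nlinarith) (by positivity)
      simp only [sub_apply, mul_ap]
      rw [← one_sub_mul, abs_mul, abs_of_nonneg (sub_nonneg.2 b)]
      nlinarith [abs_nonneg (φ z)]
  refine norm_le_zero_iff.1 (ge_of_tendsto (f := fun ε : ℝ => 2 * ε * (u χ).re) (x := 𝓝[>] 0)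
    (tendsto_nhdsWithin_of_tendsto_nhds (Continuous.tendsto' (by fun_prop) _ _ (by simp)))
    (eventually_nhdsWithin_of_forall k))

omit hu in
noncomputable def tr (v : E) (φ : 𝒯) (t : ℝ) : 𝒯 :=
  ⟨fun z => φ (z - t • v), φ.contDiff.comp (contDiff_id.sub contDiff_const),
    φ.hasCompactSupport.comp_homeomorph (Homeomorph.subRight (t • v)), subset_univ _⟩

lemma step {v : E} (hv : ∀ φ : 𝒯, u (∂_{v} φ) = 0) (φ : 𝒯) :
    ∃ C, ∀ h : ℝ, |h| ≤ 1 → ‖u (tr v φ h) - u φ‖ ≤ C * h ^ 2 := by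
  obtain ⟨R, hR⟩ := φ.hasCompactSupport.isCompact.isBounded.exists_norm_le
  obtain ⟨χ, c0, c1⟩ := cut (R + ‖v‖)
  obtain ⟨M, hM⟩ := (∂_{v} φ : 𝒯).contDiff.lipschitzWith_of_hasCompactSupport
    (∂_{v} φ : 𝒯).hasCompactSupport (by simp)
  refine ⟨M * ‖v‖ * (u χ).re, fun h h1 => ?_⟩
  have := ord hu (φ := tr v φ h - φ + h • ∂_{v} φ) (ε := M * ‖v‖ * h ^ 2) c0 fun z => ?_
  · simpa [hv, mul_right_comm] using this
  change |φ (z - h • v) - φ z + h * (∂_{v} φ : 𝒯) z| ≤ _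
  by_cases p : ‖z‖ ≤ R + ‖v‖
  · have d : ∀ s : ℝ, HasDerivAt (fun s : ℝ => φ (z - s • v) + s * (∂_{v} φ : 𝒯) z)
        ((∂_{v} φ : 𝒯) z - (∂_{v} φ : 𝒯) (z - s • v)) s := fun s => by
      refine (((φ.contDiff.differentiable (by simp) _).hasFDerivAt.comp_hasDerivAt s
        (((hasDerivAt_id s).smul_const v).const_sub z)).add
        ((hasDerivAt_id s).mul_const _)).congr_deriv ?_
      simp [dap]; ring
    have := (convex_closedBall (0 : ℝ) |h|).norm_image_sub_le_of_norm_hasDerivWithin_le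
      (C := M * ‖v‖ * |h|) (fun s _ => (d s).hasDerivWithinAt) (fun s hs => by
        refine (hM.norm_sub_le _ _).trans ?_
        rw [sub_sub_cancel, norm_smul, mul_assoc, mul_comm ‖v‖]
        gcongr
        exact mem_closedBall_zero_iff.1 hs) (mem_closedBall_self (abs_nonneg h))
      (mem_closedBall_zero_iff.2 le_rfl)
    rw [c1 z p, ← sq_abs h]
    simp at this
    convert this using 1 <;> ring_nf
  · have a : z ∉ tsupport φ := fun k => p ((hR z k).trans (by simp))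
    have b : z - h • v ∉ tsupport φ := fun k => p (by
      have := norm_add_le (z - h • v) (h • v)
      rw [sub_add_cancel, norm_smul] at this
      nlinarith [hR _ k, norm_nonneg v, Real.norm_eq_abs h])
    rw [image_eq_zero_of_notMem_tsupport a, image_eq_zero_of_notMem_tsupport b, dap,
      image_eq_zero_of_notMem_tsupport fun k => a (tsupport_fderiv_apply_subset ℝ v k)]
    simpa using mul_nonneg (by positivity) (c0 z)

lemma inv {v : E} (hv : ∀ φ : 𝒯, u (∂_{v} φ) = 0) (φ : 𝒯) (t : ℝ) : u (tr v φ t) = u φ := by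
  have d : ∀ t, HasDerivAt (fun t => u (tr v φ t)) 0 t := fun t => by
    obtain ⟨C, hC⟩ := step hu hv (tr v φ t)
    rw [hasDerivAt_iff_isLittleO_nhds_zero]
    refine (Asymptotics.IsBigO.of_bound C ?_).trans_isLittleO (Asymptotics.isLittleO_pow_id one_lt_two)
    filter_upwards [closedBall_mem_nhds 0 one_pos] with h h1
    have : tr v φ (t + h) = tr v (tr v φ t) h := by
      ext z; change φ _ = φ _; congr 1; module
    simpa [this] using hC h (mem_closedBall_zero_iff.1 h1)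
  have := is_const_of_deriv_eq_zero (fun t => (d t).differentiableAt) (fun t => (d t).deriv) t 0
  rwa [show tr v φ 0 = φ by ext z; change φ _ = φ _; simp] at this

omit hu in
lemma pol {M : Fin 4 → Fin 4 → ℂ} (h : ∀ a : E, ∑ j, ∑ k, a j * star (a k) * M j k = 0) (j k) :
    M j k = 0 := by
  have a : ∀ j, M j j = 0 := fun j => by simpa [Pi.single_apply, apply_ite] using h (Pi.single j 1)
  have b := fun c : ℂ => h (Pi.single j 1 + Pi.single k c)
  simp [Pi.single_apply, apply_ite star, add_mul, mul_add, Finset.sum_add_distrib, a] at b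
  have c := b 1
  have d := b I
  simp at c d
  linear_combination c / 2 + I * d / 2 + (M j k - M k j) / 2 * I_mul_I

omit hu in
structure PC (T : Cur) : Prop where
  anti : ∀ j k l m, T l k j m = -T j k l m
  anti' : ∀ j k l m, T j m l k = -T j k l m
  pos : ∀ (a b : E) (φ : 𝒯), (∀ z, 0 ≤ φ z) →
    0 ≤ ∑ j, ∑ k, ∑ l, ∑ m, a j * star (a k) * (b l * star (b m) * T j k l m φ)
  cl : ∀ k l m (φ : 𝒯), ∑ j, (T j k l m (∂_{(Pi.single j 1 : E)} φ) -
    I * T j k l m (∂_{(Pi.single j I : E)} φ)) = 0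
  cl' : ∀ j l m (φ : 𝒯), ∑ k, (T j k l m (∂_{(Pi.single k 1 : E)} φ) +
    I * T j k l m (∂_{(Pi.single k I : E)} φ)) = 0

omit hu in
theorem vanish {T : Cur} (hT : PC T) {S : Set E} (hS : ∀ j k l m, dsupport (T j k l m) ⊆ S)
    (h : ∀ z ∈ S, z 2 = 0 ∧ z 3 = 0 ∧ ‖z 0‖ ≤ ‖z 1‖ + 8) : T = 0 := by
  have v := fun j k l m => van (u := (T j k l m : 𝒯 →ₗ[ℝ] ℂ)) (hS j k l m)
  have z : ∀ φ : 𝒯, (∀ z ∈ S, φ z = 0) → ∀ j k l m, T j k l m φ = 0 := fun φ hφ j k l m => by
    refine pol (M := fun l m => T j k l m φ) (fun b => pol (M := fun j k =>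
      ∑ l, ∑ m, b l * star (b m) * T j k l m φ) (fun a => ?_) j k) l m
    let Λ : 𝒯 →ₗ[ℝ] ℂ := ∑ j, ∑ k, ∑ l, ∑ m, (a j * star (a k) * (b l * star (b m))) •
      (T j k l m : 𝒯 →ₗ[ℝ] ℂ)
    have e : ∀ ψ, Λ ψ = ∑ j, ∑ k, ∑ l, ∑ m, a j * star (a k) * (b l * star (b m) * T j k l m ψ) :=
      fun ψ => by simp [Λ, mul_assoc]
    have := zero (u := Λ) (fun ψ p => e ψ ▸ hT.pos a b ψ p) (fun ψ p => by
      have : ∀ j k l m, T j k l m ψ = 0 := fun j k l m => v j k l m ψ p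
      simp [e, this]) hφ
    simpa only [e, Finset.mul_sum] using this
  have r : ∀ r : Fin 4, (∀ z ∈ S, z r = 0) → ∀ φ j k l m, (j = r ∨ k = r) → T j k l m φ = 0 := by
    intro r hr φ
    let ρ : E →L[ℝ] ℝ := reCLM.comp (ContinuousLinearMap.proj r)
    have d : ∀ w : E, ∀ j k l m, T j k l m (∂_{w} (mul ρ.contDiff φ)) = (w r).re * T j k l m φ := by
      intro w j k l m
      have : ∂_{w} (mul ρ.contDiff φ) = (w r).re • φ + mul ρ.contDiff (∂_{w} φ) := by
        ext x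
        rw [dap]
        erw [(ρ.hasFDerivAt.mul (φ.contDiff.differentiable (by simp) x).hasFDerivAt).fderiv]
        simp [dap, ρ]; ring
      rw [this, map_add, z (mul ρ.contDiff _) (fun x hx => by simp [ρ, hr x hx]), map_smul]
      simp
    rintro j k l m (rfl | rfl)
    · simpa [d, Pi.single_apply, apply_ite] using hT.cl k l m (mul ρ.contDiff φ)
    · simpa [d, Pi.single_apply, apply_ite] using hT.cl' j l m (mul ρ.contDiff φ)
  have r2 := r 2 fun z k => (h z k).1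
  have r3 := r 3 fun z k => (h z k).2.1
  have a : ∀ φ j k l m, T l k j m φ = -T j k l m φ := fun φ j k l m => by rw [hT.anti]; rfl
  have a' : ∀ φ j k l m, T j m l k φ = -T j k l m φ := fun φ j k l m => by rw [hT.anti']; rfl
  have b : ∀ φ j k m, T j k j m φ = 0 := fun φ j k m => by linear_combination a φ j k j m / 2
  have b' : ∀ φ j k l, T j k l k φ = 0 := fun φ j k l => by linear_combination a' φ j k l k / 2
  have μ : ∀ φ, T 0 0 1 1 φ = 0 := fun φ => by
    obtain ⟨R, hR⟩ := φ.hasCompactSupport.isCompact.isBounded.exists_norm_le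
    have := inv (u := (T 0 0 1 1 : 𝒯 →ₗ[ℝ] ℂ)) (v := Pi.single 0 1) (fun ψ p => by
      simpa [Pi.single_apply, apply_ite] using hT.pos (Pi.single 0 1) (Pi.single 1 1) ψ p)
      (fun ψ => by
        have p := hT.cl 0 1 1 ψ
        have q := hT.cl' 0 1 1 ψ
        simp [Fin.sum_univ_four, b, b', r2, r3] at p q
        exact (by linear_combination (p + q) / 2 : T 0 0 1 1 _ = 0)) φ (2 * |R| + 9)
    refine this.symm.trans (z (tr _ φ _)
      (fun x hx => image_eq_zero_of_notMem_tsupport (f := φ) fun k => ?_) 0 0 1 1)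
    have p := (norm_le_pi_norm _ 0).trans (hR _ k)
    have q := (norm_le_pi_norm _ 1).trans (hR _ k)
    have s := norm_sub_norm_le ((2 * |R| + 9 : ℝ) : ℂ) (x 0)
    rw [norm_sub_rev, norm_real, Real.norm_of_nonneg (by positivity)] at s
    simp at p q s
    linarith [(h x hx).2.2, le_abs_self R]
  ext j k l m φ
  have c : ∀ j k l m, T j k l m φ = T l m j k φ := fun j k l m => by rw [a φ j, a' φ j k, neg_neg]
  have s2 : ∀ j k l m, l = 2 ∨ m = 2 → T j k l m φ = 0 := fun j k l m p => c .. ▸ r2 φ l m j k p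
  have s3 : ∀ j k l m, l = 3 ∨ m = 3 → T j k l m φ = 0 := fun j k l m p => c .. ▸ r3 φ l m j k p
  have p := a φ 0 0 1 1
  have q := a' φ 0 0 1 1
  have s := c 1 1 0 0
  rw [μ, neg_zero] at p q
  rw [μ] at s
  change T j k l m φ = 0
  fin_cases j <;> fin_cases k <;> fin_cases l <;> fin_cases m <;>
    first | exact b .. | exact b' .. | exact μ φ | assumption | simp [r2, r3, s2, s3]

omit hu in
theorem nocur {S : Set E} (h : ∀ z ∈ S, z 2 = 0 ∧ z 3 = 0 ∧ ‖z 0‖ ≤ ‖z 1‖ + 8) : NoCur S :=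
  fun T ⟨a, b, c, d⟩ hS j k l m φ => by
    rw [vanish (T := T) ⟨fun j k l m => DFunLike.ext _ _ fun φ => (a j k l m φ).1,
      fun j k l m => DFunLike.ext _ _ fun φ => (a j k l m φ).2, b, c, d⟩ hS h]
    rfl

end Pool.Agent.H.MP_2777d9_an
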