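import Mathlib

open Set Filter Topology Complex Metric

namespace Pool.Agent.H.MP_2777d9_an

abbrev V := Fin 2 → ℂ

def J (z : V) : V := ![z 1, z 0]
def st (c : ℝ) (w : V) : V := ![w 1, w 0 - c * w 1 ^ 2]

noncomputable def W : ℕ → ℝ → V → V
  | 0, _, z => z
  | n + 1, c, z => st c (W n (c / 4) (J z))

lemma nJ {z : V} {R : ℝ} (h : ‖z‖ ≤ R) : ‖J z‖ ≤ R :=
  (pi_norm_le_iff_of_nonneg ((norm_nonneg _).trans h)).2 fun i => by
    fin_cases i <;> exact (norm_le_pi_norm z _).trans h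

lemma dJ : Differentiable ℂ J := differentiable_pi.2 fun i => by
  fin_cases i <;> exact differentiable_apply _

lemma dst (c : ℝ) : Differentiable ℂ (st c) := differentiable_pi.2 fun i => by
  fin_cases i
  · exact differentiable_apply _
  · exact (by fun_prop : Differentiable ℂ fun w : V => w 0 - c * w 1 ^ 2)

lemma dW (n : ℕ) : ∀ c, Differentiable ℂ (W n c) := by
  induction n with
  | zero => exact fun _ => differentiable_id
  | succ n ih => exact fun c => (dst c).comp ((ih _).comp dJ)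

lemma bd (n : ℕ) : ∀ {c R : ℝ} {z : V}, 0 ≤ c → ‖z‖ ≤ R → 8 * c * R ≤ 1 → ‖W n c z - z‖ ≤ 8 * c * R ^ 2 := by
  induction n with
  | zero => intro c R z h _ _; simp [W]; positivity
  | succ n ih =>
    intro c R z h a b
    have R0 := (norm_nonneg _).trans a
    have k := ih (c := c / 4) (by positivity) (nJ a) (by nlinarith [mul_nonneg h R0])
    set w := W n (c / 4) (J z)
    have k0 : ‖w 0 - z 1‖ ≤ _ := (norm_le_pi_norm (w - J z) 0).trans k
    have k1 : ‖w 1 - z 0‖ ≤ _ := (norm_le_pi_norm (w - J z) 1).trans k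
    have p : ‖w 1‖ ≤ 2 * R := by
      linarith [norm_sub_norm_le (w 1) (z 0), norm_le_pi_norm z 0, mul_le_mul_of_nonneg_right b R0]
    have q := mul_nonneg h (sq_nonneg R)
    refine (pi_norm_le_iff_of_nonneg (by positivity)).2 fun i => ?_
    fin_cases i
    · exact k1.trans (by linarith)
    · change ‖w 0 - c * w 1 ^ 2 - z 1‖ ≤ _
      rw [sub_right_comm]
      refine (norm_sub_le _ _).trans ?_
      rw [norm_mul, norm_pow, norm_real, Real.norm_of_nonneg h]
      nlinarith [mul_le_mul_of_nonneg_left (pow_le_pow_left₀ (norm_nonneg _) p 2) h]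

lemma df (n : ℕ) : ∀ {c R : ℝ} {z : V}, 0 ≤ c → ‖z‖ ≤ R → 8 * c * R ≤ 1 →
    ‖W (n + 1) c z - W n c z‖ ≤ c * R ^ 2 * (1 / 2) ^ n := by
  induction n with
  | zero =>
    intro c R z h a _
    refine (pi_norm_le_iff_of_nonneg (by positivity)).2 fun i => ?_
    fin_cases i
    · simp [W, st, J]; positivity
    · simp [W, st, J, abs_of_nonneg h]
      gcongr
      exact (norm_le_pi_norm z 0).trans a
  | succ n ih =>
    intro c R z h a b
    have R0 := (norm_nonneg _).trans a
    have b' : 8 * (c / 4) * R ≤ 1 := by nlinarith [mul_nonneg h R0]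
    have k := ih (c := c / 4) (by positivity) (nJ a) b'
    have p : ∀ n, ‖W n (c / 4) (J z) 1‖ ≤ 2 * R := fun n => by
      have : ‖W n (c / 4) (J z) 1 - z 0‖ ≤ _ :=
        (norm_le_pi_norm (_ - J z) 1).trans (bd n (c := c / 4) (by positivity) (nJ a) b')
      linarith [norm_sub_norm_le (W n (c / 4) (J z) 1) (z 0), norm_le_pi_norm z 0,
        mul_le_mul_of_nonneg_right b R0]
    have p1 := p (n + 1)
    have p2 := p n
    change ‖st c (W (n + 1) (c / 4) (J z)) - st c (W n (c / 4) (J z))‖ ≤ _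
    generalize W (n + 1) (c / 4) (J z) = w at *
    generalize W n (c / 4) (J z) = w' at *
    have k0 : ‖w 0 - w' 0‖ ≤ _ := (norm_le_pi_norm (w - w') 0).trans k
    have k1 : ‖w 1 - w' 1‖ ≤ _ := (norm_le_pi_norm (w - w') 1).trans k
    have q : 0 ≤ c * R ^ 2 * (1 / 2) ^ n := by positivity
    refine (pi_norm_le_iff_of_nonneg (by positivity)).2 fun i => ?_
    fin_cases i
    · exact k1.trans (by rw [pow_succ (1 / 2 : ℝ)]; linarith)
    · change ‖w 0 - c * w 1 ^ 2 - (w' 0 - c * w' 1 ^ 2)‖ ≤ _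
      rw [show w 0 - c * w 1 ^ 2 - (w' 0 - c * w' 1 ^ 2) =
        w 0 - w' 0 - c * (w 1 + w' 1) * (w 1 - w' 1) by ring, pow_succ (1 / 2 : ℝ)]
      refine (norm_sub_le _ _).trans ?_
      have : ‖(c : ℂ) * (w 1 + w' 1)‖ ≤ 1 := by
        rw [norm_mul, norm_real, Real.norm_of_nonneg h]
        nlinarith [mul_le_mul_of_nonneg_left ((norm_add_le _ _).trans (add_le_add p1 p2)) h]
      rw [norm_mul]
      linarith [mul_le_of_le_one_left (norm_nonneg (w 1 - w' 1)) this]

lemma cau {g : V → V} (hg : Differentiable ℂ g) {R B : ℝ} (R0 : 0 < R) (h : ∀ z, ‖z‖ ≤ 2 * R → ‖g z‖ ≤ B)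
    {x : V} (hx : ‖x‖ ≤ R) : ‖fderiv ℂ g x‖ ≤ B / R := by
  refine ContinuousLinearMap.opNorm_le_of_unit_norm
    (div_nonneg ((norm_nonneg _).trans (h 0 (by simp [R0.le]))) R0.le) fun v hv => ?_
  have d : Differentiable ℂ fun t : ℂ => g (x + t • v) := by fun_prop
  rw [← ((hg x).hasFDerivAt.hasLineDerivAt v).deriv]
  refine norm_deriv_le_of_forall_mem_sphere_norm_le R0 d.diffContOnCl fun t ht => h _ ?_
  have := norm_add_le x (t • v)
  rw [norm_smul, hv, mem_sphere_zero_iff_norm.1 ht] at this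
  linarith

def Good (c R : ℝ) : Prop := ∃ g : V → V, DifferentiableOn ℂ g (ball 0 R) ∧
  ∀ z ∈ ball (0 : V) R, Tendsto (W · c z) atTop (𝓝 (g z))

lemma small {c R : ℝ} (h : 0 ≤ c) (R0 : 0 < R) (b : 8 * c * (2 * R) ≤ 1) : Good c R := by
  have s := summable_geometric_two.mul_left (c * (2 * R) ^ 2)
  have u : ∀ z ∈ ball (0 : V) R, Summable fun n => W (n + 1) c z - W n c z := fun z hz =>
    s.of_norm_bounded fun n => df n h (by linarith [mem_ball_zero_iff.1 hz]) b
  refine ⟨fun z => (∑' n, (W (n + 1) c z - W n c z)) + z, fun z hz =>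
    ((hasFDerivAt_tsum_of_isPreconnected (s.div_const R) isOpen_ball (convex_ball 0 R).isPreconnected
      (fun n x _ => (((dW (n + 1) c).sub (dW n c)) x).hasFDerivAt) (fun n x hx =>
        cau ((dW (n + 1) c).sub (dW n c)) R0 (fun z a => df n h a b) (mem_ball_zero_iff.1 hx).le)
      hz (u z hz) hz).differentiableAt.add differentiableAt_id).differentiableWithinAt, fun z hz => ?_⟩
  refine ((u z hz).hasSum.tendsto_sum_nat.add_const z).congr fun n => ?_
  rw [Finset.sum_range_sub (W · c z)]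
  simp [W]

lemma mJ {R : ℝ} : MapsTo J (ball 0 R) (ball 0 R) := fun z hz =>
  mem_ball_zero_iff.2 ((nJ le_rfl).trans_lt (mem_ball_zero_iff.1 hz))

lemma good {c R : ℝ} (h : 0 ≤ c) (R0 : 0 < R) : Good c R := by
  obtain ⟨m, hm⟩ := pow_unbounded_of_one_lt (8 * c * (2 * R)) (show (1 : ℝ) < 4 by norm_num)
  induction m generalizing c with
  | zero => exact small h R0 (by simpa using hm.le)
  | succ m ih =>
    obtain ⟨g, a, b⟩ := ih (c := c / 4) (by positivity) (by rw [pow_succ] at hm; linarith)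
    exact ⟨fun z => st c (g (J z)), (dst c).comp_differentiableOn (a.comp dJ.differentiableOn mJ),
      fun z hz => (tendsto_add_atTop_iff_nat 1).1 (((dst c).continuous.tendsto _).comp (b _ (mJ hz)))⟩

noncomputable def τ (c : ℝ) (z : V) : V := limUnder atTop (W · c z)

lemma tτ {c : ℝ} (h : 0 ≤ c) (z : V) : Tendsto (W · c z) atTop (𝓝 (τ c z)) := by
  obtain ⟨g, -, b⟩ := good h (show 0 < ‖z‖ + 1 by positivity)
  exact tendsto_nhds_limUnder ⟨_, b z (by simp)⟩

lemma dτ {c : ℝ} (h : 0 ≤ c) : Differentiable ℂ (τ c) := fun z => by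
  obtain ⟨g, a, b⟩ := good h (show 0 < ‖z‖ + 1 by positivity)
  have m := isOpen_ball.mem_nhds (show z ∈ ball (0 : V) (‖z‖ + 1) by simp)
  exact (a.differentiableAt m).congr_of_eventuallyEq
    (mem_of_superset m fun w hw => tendsto_nhds_unique (tτ h w) (b w hw))

lemma rτ {c : ℝ} (h : 0 ≤ c) (z : V) : τ c z = st c (τ (c / 4) (J z)) :=
  tendsto_nhds_unique ((tendsto_add_atTop_iff_nat 1).2 (tτ h z))
    (((dst c).continuous.tendsto _).comp (tτ (by positivity) _))

lemma bτ {c R : ℝ} {z : V} (h : 0 ≤ c) (a : ‖z‖ ≤ R) (b : 8 * c * R ≤ 1) : ‖τ c z - z‖ ≤ 8 * c * R ^ 2 :=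
  le_of_tendsto' ((tτ h z).sub_const z).norm fun n => bd n h a b

lemma d0 : HasFDerivAt (τ 1) (ContinuousLinearMap.id ℂ V) 0 := by
  have z : τ 1 0 = 0 := by simpa using bτ (z := 0) (R := 0) zero_le_one (by simp) (by simp)
  rw [hasFDerivAt_iff_isLittleO_nhds_zero]
  refine (Asymptotics.IsBigO.of_bound 8 ?_).trans_isLittleO (Asymptotics.isLittleO_norm_pow_id one_lt_two)
  filter_upwards [closedBall_mem_nhds 0 (show (0 : ℝ) < 1 / 8 by norm_num)] with x hx
  simpa [z] using bτ zero_le_one le_rfl (by linarith [mem_closedBall_zero_iff.1 hx])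

noncomputable def hen (z : V) : V := ![(z 1 + z 0 ^ 2) / 4, z 0 / 4]

lemma orb (z : V) (n : ℕ) : hen^[n] (τ 1 z) = ((1 / 4) ^ n : ℝ) • τ ((1 / 4) ^ n) (J^[n] z) := by
  induction n with
  | zero => simp
  | succ n ih =>
    rw [Function.iterate_succ_apply', ih, rτ (by positivity), Function.iterate_succ_apply', pow_succ,
      mul_one_div]
    ext i
    fin_cases i <;> simp [hen, st] <;> ring

lemma lim0 (z : V) : Tendsto (fun n => hen^[n] (τ 1 z)) atTop (𝓝 0) := by
  have t := tendsto_pow_atTop_nhds_zero_of_lt_one (show (0 : ℝ) ≤ 1 / 4 by norm_num) (by norm_num)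
  have j : ∀ n, ‖J^[n] z‖ ≤ ‖z‖ := fun n => by
    induction n with
    | zero => rfl
    | succ n ih => rw [Function.iterate_succ_apply']; exact nJ ih
  refine squeeze_zero_norm' ?_ (by simpa using t.mul_const (2 * ‖z‖))
  filter_upwards [((t.const_mul 8).mul_const ‖z‖).eventually (ge_mem_nhds (by simp : 8 * 0 * ‖z‖ < 1))]
    with n h
  have := bτ (by positivity) (j n) h
  rw [orb, norm_smul, Real.norm_of_nonneg (by positivity), ← inv_pow, ← one_div]
  gcongr
  linarith [norm_sub_norm_le (τ ((1 / 4) ^ n) (J^[n] z)) (J^[n] z), j n,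
    mul_le_mul_of_nonneg_right h (norm_nonneg z)]

lemma esc (w : V) : ‖τ 1 w 0‖ ≤ ‖τ 1 w 1‖ + 8 := by
  by_contra h
  have k : ∀ n, 8 ≤ ‖hen^[n] (τ 1 w) 0‖ ∧ ‖hen^[n] (τ 1 w) 1‖ ≤ ‖hen^[n] (τ 1 w) 0‖ := fun n => by
    induction n with
    | zero => constructor <;> simp <;> linarith [norm_nonneg (τ 1 w 1)]
    | succ n ih =>
      rw [Function.iterate_succ_apply']
      generalize hen^[n] (τ 1 w) = z at *
      have := norm_sub_norm_le (z 0 ^ 2) (-z 1)
      rw [sub_neg_eq_add, add_comm, norm_neg, norm_pow] at this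
      simp [hen]
      constructor <;> nlinarith [ih.1, ih.2]
  have := ge_of_tendsto' ((continuous_apply 0).norm.tendsto _ |>.comp (lim0 w)) fun n => (k n).1
  norm_num at this

end Pool.Agent.H.MP_2777d9_an
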